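import Pool.Agent.W907.FreeSet.Final

/-!
# Strongly almost disjoint set mappings which meet every large set almost everywhere
-/

set_option autoImplicit false

namespace Pool.Agent.Y787.FS

open Cardinal Set Pool.Agent.W907.FreeSet

universe u

/-- every unbounded set has a small subset which is met by almost all the sets `N α` -/
theorem core' {lam : Cardinal.{u}} {I : Type u} [LinearOrder I] (F : Fil lam I)
    {K : Type u} [LinearOrder K] [WellFoundedLT K] [Nonempty K]
    (hpow : (2 : Cardinal.{u}) ^ lam = Order.succ lam)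
    (hK : #K = Order.succ lam) (hI : ∀ a : K, #(Iio a) ≤ lam) :
    ∃ N : K → Set K, (∀ α, N α ⊆ Iio α) ∧
      (∀ A : Set K, (∀ γ, ∃ α ∈ A, γ < α) → ∃ A₀ ⊆ A, #A₀ ≤ lam ∧ ∃ b, ∀ α, b < α →
        ∃ x ∈ A₀, x ∈ N α) ∧
      (∀ α β : K, β < α → #(N α ∩ N β : Set K) < lam) := by
  obtain ⟨D, E, hE⟩ := main_setup F hK hI hpow
  obtain ⟨X, hX⟩ := exists_graph D E
  refine ⟨Nb X, fun α => nb_sub (hX α), ?_, ?_⟩
  · intro A hA
    obtain ⟨n0, hn0⟩ := cat_of_unbounded hK hI D A hA
    have h1 : ∀ n, ∃ δ, n0 ≤ n → E n δ ⊆ A ∧ Good D n δ (E n δ) := by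
      intro n
      by_cases hn : n0 ≤ n
      · obtain ⟨δ, hδ⟩ := hE n A (hn0 n hn)
        exact ⟨δ, fun _ => hδ⟩
      · exact ⟨Classical.arbitrary K, fun h => absurd h hn⟩
    choose δ hδ using h1
    obtain ⟨i, hi⟩ := D.capture (fun n => {δ n}) (fun n =>
      small_subsingleton (F.inf n) subsingleton_singleton)
    obtain ⟨b, hb⟩ := strict_bound F.base hK hI ({i} ∪ range δ) (by
      refine small_union F.base ?_ ?_
      · exact small_subsingleton F.base subsingleton_singleton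
      · exact Cardinal.mk_range_le.trans F.cardI)
    refine ⟨⋃ n ∈ Ici n0, E n (δ n), ?_, ?_, b, ?_⟩
    · intro x hx
      obtain ⟨n, hn, hx⟩ := mem_iUnion₂.1 hx
      exact (hδ n hn).1 hx
    · refine small_biUnion F.base _ ((Cardinal.mk_set_le _).trans F.cardI) _ fun n hn => ?_
      exact ((hδ n hn).2.card_le).trans (F.succ_lt n)
    · intro α hbα
      obtain ⟨n1, hn1⟩ := hi α ((hb i (Or.inl rfl)).trans hbα)
      let n := max n0 n1
      obtain ⟨hsub, hgood⟩ := hδ n (le_max_left _ _)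
      have hmem : δ n ∈ D.D n α := hn1 n (le_max_right _ _)
        ⟨rfl, (hb _ (Or.inr ⟨n, rfl⟩)).trans hbα⟩
      obtain ⟨x, hxX, hxE⟩ := (hX α).hit n (δ n) hmem hgood
      exact ⟨x, mem_iUnion₂.2 ⟨n, le_max_left _ _, hxE⟩, mem_iUnion.2 ⟨n, hxX⟩⟩
  · intro α β hβα
    obtain ⟨n, hn⟩ := D.union α β hβα
    refine lt_of_le_of_lt (small_mono (t := ⋃ m ∈ Iio n, X α m) ?_
      (small_biUnion (F.inf n) (Iio n) ((Cardinal.mk_set_le _).trans (F.card n)) _
        (fun m hm => ((hX α).card m).trans (F.mono (le_of_lt hm))))) (F.lt n)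
    rintro x ⟨hxα, hxβ⟩
    obtain ⟨m, hm⟩ := mem_iUnion.1 hxα
    simp only [mem_iUnion]
    refine ⟨m, ?_, hm⟩
    by_contra hnot
    have h2 : β ∈ D.D m α := D.mono n m α (not_lt.1 hnot) hn
    exact (hX α).disj m β h2 x hm hxβ

/-- sets of full cardinality are unbounded -/
theorem unbounded_of {lam : Cardinal.{u}} (h0 : ℵ₀ ≤ lam) {K : Type u} [LinearOrder K]
    (hI : ∀ a : K, #(Iio a) ≤ lam) (A : Set K) (hA : ¬ #A ≤ lam) :
    ∀ γ, ∃ α ∈ A, γ < α := by
  intro γ
  by_contra hcon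
  push Not at hcon
  apply hA
  refine small_mono (t := Iio γ ∪ {γ}) ?_ (small_union h0 (hI γ)
    (small_subsingleton h0 subsingleton_singleton))
  intro y hy
  rcases lt_or_eq_of_le (hcon y hy) with h | h
  · exact Or.inl h
  · exact Or.inr h

/-- the sets `N α` meet a suitable small subset of every large set in `lam` points -/
theorem core_full {lam : Cardinal.{u}} {I : Type u} [LinearOrder I] (F : Fil lam I)
    {K : Type u} [LinearOrder K] [WellFoundedLT K] [Nonempty K]
    (hpow : (2 : Cardinal.{u}) ^ lam = Order.succ lam)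
    (hK : #K = Order.succ lam) (hI : ∀ a : K, #(Iio a) ≤ lam) :
    ∃ N : K → Set K, (∀ α, N α ⊆ Iio α) ∧
      (∀ A : Set K, #A = Order.succ lam → ∃ A₀ ⊆ A, #A₀ = lam ∧ ∃ b, ∀ α, b < α →
        #(N α ∩ A₀ : Set K) = lam) ∧
      (∀ α β : K, β < α → #(N α ∩ N β : Set K) < lam) := by
  classical
  obtain ⟨N, hN1, hN2, hN3⟩ := core' F hpow hK hI
  refine ⟨N, hN1, fun A hA => ?_, hN3⟩
  have h0 : ℵ₀ ≤ lam := F.base
  -- split `A` into `lam` parts
  let J : Type u := lam.out
  have hJ : #J = lam := Cardinal.mk_out _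
  obtain ⟨e⟩ : Nonempty (A ≃ J × A) := by
    refine Cardinal.eq.1 ?_
    rw [Cardinal.mk_prod, Cardinal.lift_id, Cardinal.lift_id, hJ, hA,
      Cardinal.mul_eq_right (h0.trans (Order.le_succ _)) (Order.le_succ _)
        (fun h => by rw [h] at h0; exact absurd h0 (not_le.2 Cardinal.aleph0_pos))]
  let P : J → Set K := fun j => {x | ∃ h : x ∈ A, (e ⟨x, h⟩).1 = j}
  have hPcard : ∀ j, ¬ #(P j) ≤ lam := by
    intro j hj
    have h1 : #A ≤ #(P j) := by
      refine Cardinal.mk_le_of_injective (f := fun a : A => (⟨(e.symm (j, a) : A),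
        (e.symm (j, a)).2, by simp⟩ : P j)) ?_
      intro a a' h
      have h3 : ((e.symm (j, a) : A) : K) = (e.symm (j, a') : A) :=
        congrArg (fun z : P j => (z : K)) h
      have h2 : e.symm (j, a) = e.symm (j, a') := Subtype.ext h3
      exact (Prod.mk.inj (e.symm.injective h2)).2
    rw [hA] at h1
    exact absurd (h1.trans hj) (not_le.2 (Order.lt_succ lam))
  choose Q hQ1 hQ2 b hb using fun j => hN2 (P j) (unbounded_of h0 hI (P j) (hPcard j))
  obtain ⟨c, hc⟩ := strict_bound h0 hK hI (range b) (Cardinal.mk_range_le.trans hJ.le)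
  have hsub : (⋃ j, Q j) ⊆ A := by
    intro x hx
    obtain ⟨j, hx⟩ := mem_iUnion.1 hx
    exact (hQ1 j hx).1
  have hbig : ∀ α, c < α → lam ≤ #(N α ∩ ⋃ j, Q j : Set K) := by
    intro α hα
    have h1 : ∀ j, ∃ x ∈ Q j, x ∈ N α := fun j => hb j α ((hc _ ⟨j, rfl⟩).trans hα)
    choose x hx1 hx2 using h1
    rw [← hJ]
    refine Cardinal.mk_le_of_injective (f := fun j => (⟨x j, hx2 j, mem_iUnion.2 ⟨j, hx1 j⟩⟩ :
      (N α ∩ ⋃ j, Q j : Set K))) ?_
    intro j j' h
    have h2 : x j = x j' := congrArg Subtype.val h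
    obtain ⟨h3, h4⟩ := hQ1 j (hx1 j)
    obtain ⟨h5, h6⟩ := hQ1 j' (hx1 j')
    rw [← h4, ← h6]
    congr 2
    exact Subtype.ext h2
  have hsmall : #(⋃ j, Q j) ≤ lam := small_iUnion h0 hJ.le _ hQ2
  obtain ⟨γ, -, hγ⟩ := unbounded_of h0 hI A (by
    rw [hA]; exact not_le.2 (Order.lt_succ lam)) c
  refine ⟨⋃ j, Q j, hsub, le_antisymm hsmall ((hbig γ hγ).trans
    (Cardinal.mk_le_mk_of_subset inter_subset_right)), c, fun α hα => le_antisymm
    (small_mono inter_subset_right hsmall) (hbig α hα)⟩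

/-- **The set mapping.** -/
theorem mapping' {lam : Cardinal.{u}} (hs : lam.IsSingular)
    (hl : ∀ κ < lam, (2 : Cardinal.{u}) ^ κ < lam)
    (hpow : (2 : Cardinal.{u}) ^ lam = Order.succ lam) (S : Type u) (hS : #S = Order.succ lam) :
    ∃ f : S → Set S, (∀ x, x ∉ f x) ∧ (∀ x, #(f x) ≤ lam) ∧
      (∀ x y, x ≠ y → #(f x ∩ f y : Set S) < lam) ∧
      ∀ A : Set S, #A = Order.succ lam → ∃ A₀ ⊆ A, #A₀ = lam ∧
        #{x : S | #(f x ∩ A₀ : Set S) ≠ lam} ≤ lam := by
  classical
  obtain ⟨F⟩ := exists_fil hs hl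
  set K : Type u := (Order.succ lam).ord.ToType with hKdef
  have hK : #K = Order.succ lam := Cardinal.mk_ord_toType _
  have hI : ∀ a : K, #(Iio a) ≤ lam := by
    intro a
    have h := Cardinal.mk_Iio_lt a (by rw [hK]; simp [K])
    rw [hK] at h
    exact Order.lt_succ_iff.1 h
  have hne : Nonempty K := by
    rw [← Cardinal.mk_ne_zero_iff, hK]
    exact (Cardinal.succ_pos _).ne'
  obtain ⟨N, hN1, hN2, hN3⟩ := core_full F hpow hK hI
  obtain ⟨e⟩ : Nonempty (S ≃ K) := Cardinal.eq.1 (hS.trans hK.symm)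
  have hcard : ∀ A : Set K, #(e ⁻¹' A : Set S) = #A := by
    intro A
    exact Cardinal.mk_preimage_equiv e A
  refine ⟨fun x => e ⁻¹' N (e x), ?_, ?_, ?_, ?_⟩
  · intro x hx
    exact lt_irrefl (e x) (hN1 (e x) hx)
  · intro x
    rw [hcard]
    exact small_mono (hN1 (e x)) (hI (e x))
  · intro x y hxy
    rw [← preimage_inter, hcard]
    rcases lt_or_gt_of_ne (fun h => hxy (e.injective h) : e x ≠ e y) with h | h
    · rw [inter_comm]
      exact hN3 _ _ h
    · exact hN3 _ _ h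
  · intro A hA
    obtain ⟨A₀, h1, h2, b, h3⟩ := hN2 (e.symm ⁻¹' A) (by
      rw [Cardinal.mk_preimage_equiv]; exact hA)
    refine ⟨e ⁻¹' A₀, ?_, by rw [hcard]; exact h2, ?_⟩
    · intro x hx
      have h4 := h1 hx
      rw [mem_preimage, e.symm_apply_apply] at h4
      exact h4
    · refine small_mono (t := e ⁻¹' (Iio b ∪ {b})) ?_ ?_
      · intro x hx
        by_contra h4
        apply hx
        have h5 : b < e x := by
          by_contra h6
          apply h4
          rcases lt_or_eq_of_le (not_lt.1 h6) with h | h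
          · exact Or.inl h
          · exact Or.inr h
        rw [← preimage_inter, hcard]
        exact h3 _ h5
      · rw [hcard]
        exact small_union F.base (hI b) (small_subsingleton F.base subsingleton_singleton)

end Pool.Agent.Y787.FS
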